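import Pool.Agent.Helper91.KZ.StL

set_option autoImplicit false

namespace Pool.Agent.Helper61.KZ

open Pool.Agent.Helper91.KZ Polynomial TensorProduct
open scoped PowerSeries

universe u

section

variable {K A : Type u} [Field K] [Ring A] [Algebra K A]

lemma fp_coeff (f : A →ₗ[K] K) (v : A[X]) (k : ℕ) : (fp f v).coeff k = f (v.coeff k) := by
  unfold fp
  rw [Polynomial.sum_def, finsetSum_coeff]
  simp only [coeff_monomial]
  rw [Finset.sum_ite_eq' v.support k (fun i => f (v.coeff i))]
  split_ifs with h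
  · rfl
  · rw [notMem_support_iff.1 h, map_zero]

lemma ev_sum {n : ℕ} (c : Fin n → K[X]) (z : A[X]) :
    ev (∑ j : Fin n, C (c j) * X ^ (j : ℕ)) z = ∑ j : Fin n, ca A (c j) * z ^ (j : ℕ) := by
  unfold ev
  rw [eval₂_finsetSum]
  refine Finset.sum_congr rfl (fun j _ => ?_)
  rw [C_mul_X_pow_eq_monomial, eval₂_monomial]
  rfl

end

theorem IND (hdet : ST_DET.{u}) : ST_IND.{u} := by
  intro K A _ _ _ z P hP b hb
  have hind : ∀ c : Fin P.natDegree → K[X], ∑ i, ca A (c i) * z ^ (i : ℕ) = 0 → c = 0 := by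
    intro c hc
    have hdeg : (∑ j : Fin P.natDegree, C (c j) * X ^ (j : ℕ) : K[X][X]).degree < P.degree := by
      rw [degree_eq_natDegree hP.mon.ne_zero]
      exact degree_sum_fin_lt c
    have h0 := hP.ind _ hdeg (by rw [ev_sum, hc])
    funext j
    have h1 := congrArg (fun Q : K[X][X] => Q.coeff (j : ℕ)) h0
    simp only [finsetSum_coeff, coeff_C_mul, coeff_X_pow, coeff_zero] at h1
    rw [Finset.sum_eq_single j] at h1
    · simpa using h1
    · intro i _ hij
      have : (j : ℕ) ≠ i := fun h => hij (Fin.ext h.symm)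
      simp [this]
    · intro h
      exact absurd (Finset.mem_univ j) h
  obtain ⟨f, hf⟩ := hdet K A P.natDegree (fun j => z ^ (j : ℕ)) hind
  set M : Matrix (Fin P.natDegree) (Fin P.natDegree) K[X] :=
    Matrix.of fun i j => fp (f i) (z ^ (j : ℕ)) with hM
  have hdet' : (M.map (Polynomial.coeToPowerSeries.ringHom (R := K))).det ≠ 0 := by
    have e : (M.map (Polynomial.coeToPowerSeries.ringHom (R := K))).det =
        Polynomial.coeToPowerSeries.ringHom M.det := (RingHom.map_det _ _).symm
    rw [e, Polynomial.coeToPowerSeries.ringHom_apply]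
    intro h
    exact hf (Polynomial.coe_injective K (by rw [h, Polynomial.coe_zero]))
  refine Matrix.eq_zero_of_mulVec_eq_zero hdet' ?_
  funext i
  rw [Matrix.mulVec, dotProduct]
  ext N
  rw [map_sum]
  simp only [Matrix.map_apply, hM, Matrix.of_apply, Polynomial.coeToPowerSeries.ringHom_apply,
    Pi.zero_apply, map_zero]
  have h2 := congrArg (fun s : A⟦X⟧ => f i (PowerSeries.coeff N s)) hb
  simp only [map_sum, map_zero] at h2
  rw [← h2]
  refine Finset.sum_congr rfl (fun j _ => ?_)
  rw [mul_comm, PowerSeries.coeff_mul, PowerSeries.coeff_mul, map_sum]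
  refine Finset.sum_congr rfl (fun ab _ => ?_)
  rw [PowerSeries.coeff_map, ← Polynomial.coe_pow, Polynomial.coeff_coe, Polynomial.coeff_coe,
    fp_coeff, ← Algebra.smul_def, map_smul, smul_eq_mul]

end Pool.Agent.Helper61.KZ
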