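import Pool.Agent.Helper91.KZ.StL

set_option autoImplicit false

namespace Pool.Agent.Helper61.KZ

open Pool.Agent.Helper91.KZ Polynomial TensorProduct
open scoped PowerSeries

universe u

theorem NU (htrs : ST_TRS.{u}) (hul : ST_UL.{u}) : ST_NU.{u} := by
  intro K A _ _ _ _ z P l m hP hroot hunit
  have h1 := (htrs K A z P l m hP).1
  have h2 := (htrs K A _ _ l m h1).2
  refine hul K A _ _ h2 ?_ ?_
  · have e : ((z.comp (X + C (algebraMap K A l))) - C (algebraMap K A m)).coeff 0 =
        vl l z - algebraMap K A m := by
      rw [coeff_sub, coeff_C_zero, ← constantCoeff_apply, comp, hom_eval₂]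
      congr 1
      unfold vl eval
      congr 1
      · ext a
        simp
      · simp
    rw [e]
    exact hunit
  · rw [coeff_zero_eq_eval_zero, coeff_zero_eq_eval_zero, eval_comp]
    rw [eval_add, eval_X, eval_C, zero_add, eval_map, ← coe_evalRingHom, hom_eval₂]
    rw [eval_map] at hroot
    convert hroot using 1
    congr 1
    · ext a
      · simp
      · simp
    · simp

end Pool.Agent.Helper61.KZ
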